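import Pool.Agent.Lib_helper86.KL.Core

/-!
Coordinate free form of the core theorem.
-/

set_option linter.unusedSectionVars false

namespace Pool.Agent.KL

open scoped BigOperators

lemma TFree.map {ι ι' F F' : Type*} [Fintype ι] [Fintype ι'] [AddCommGroup F] [Module ℝ F]
    [AddCommGroup F'] [Module ℝ F'] {r : ℕ} {y : ι → F} (hy : TFree r y) (e : ι' ≃ ι)
    (L : F →ₗ[ℝ] F') (hL : Function.Injective L) : TFree r (fun i => L (y (e i))) := by
  intro σ t ht h i
  have key : ∀ s : Option (Fin r), L (∑ i, (if (σ ∘ e.symm) i = s then (t ∘ e.symm) i else 0) • y i)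
      = ∑ i, (if σ i = s then t i else 0) • L (y (e i)) := by
    intro s
    rw [map_sum, ← Equiv.sum_comp e]
    refine Finset.sum_congr rfl fun i _ => ?_
    split_ifs with h1 <;> simp_all
  have h1 := hy (σ ∘ e.symm) (t ∘ e.symm) (fun i => ht _) (by
    intro j
    apply hL
    rw [key (some j), key none]
    exact h j) (e i)
  simpa using h1

/-- Tverberg type bound -/
theorem TFree.card_le {ι F : Type*} [Fintype ι] [AddCommGroup F] [Module ℝ F]
    [FiniteDimensional ℝ F] {r : ℕ} {y : ι → F} (hy : TFree r y) :
    Fintype.card ι ≤ r * Module.finrank ℝ F := by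
  classical
  let b := Module.finBasis ℝ F
  have h1 := hy.map (Equiv.refl ι) b.equivFun.toLinearMap b.equivFun.injective
  obtain ⟨σ, hσ⟩ := exists_indep h1
  have h2 := hσ.fintype_card_le_finrank
  simpa using h2

/-- the core theorem, coordinate free -/
theorem core {ι F : Type*} [Fintype ι] [AddCommGroup F] [Module ℝ F]
    [FiniteDimensional ℝ F] {r : ℕ} (hr : 0 < r) {y : ι → F} (hy : TFree r y)
    (hcard : Fintype.card ι = r * Module.finrank ℝ F) :
    ∃ ε : ι → Fin r, (∀ j, Fintype.card {i // ε i = j} = Module.finrank ℝ F) ∧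
      (∀ j, LinearIndependent ℝ (fun i : {i // ε i = j} => y i)) ∧
      (∀ j, Submodule.span ℝ (Set.range fun i : {i // ε i = j} => y i) = ⊤) ∧
      ∃ (z : F) (a : ι → ℝ), (∀ i, 0 < a i) ∧
        ∀ j, ∑ i : {i // ε i = j}, a i • y i = z := by
  classical
  set D := Module.finrank ℝ F with hD
  let b := Module.finBasis ℝ F
  have e : Fin r × Fin D ≃ ι := by
    apply Fintype.equivOfCardEq
    simp [hcard]
  have h1 := hy.map e b.equivFun.toLinearMap b.equivFun.injective
  obtain ⟨ε', hli, z, a, ha, hz⟩ := core_coord hr h1
  set ε : ι → Fin r := fun i => ε' (e.symm i) with hε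
  -- linear independence on classes
  have hlin : ∀ j, LinearIndependent ℝ (fun i : {i // ε i = j} => y i) := by
    intro j
    have h2 := hli.comp (fun i : {i // ε i = j} => e.symm i.1)
      (fun u v huv => Subtype.ext (e.symm.injective huv))
    let blkL : (Fin D → ℝ) →ₗ[ℝ] (Fin r × Fin D → ℝ) :=
      { toFun := fun w => blk j w
        map_add' := fun u v => by
          funext p
          simp only [blk, Pi.add_apply]
          split_ifs <;> simp
        map_smul' := fun s v => by
          funext p
          simp only [blk, Pi.smul_apply, RingHom.id_apply, smul_eq_mul]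
          split_ifs <;> simp }
    have h3 : LinearIndependent ℝ ((blkL ∘ₗ b.equivFun.toLinearMap) ∘
        (fun i : {i // ε i = j} => y i)) := by
      convert h2 using 1
      funext i
      have h4 : ε' (e.symm i.1) = j := i.2
      simp [blkL, h4]
    exact LinearIndependent.of_comp _ h3
  have hcle : ∀ j, Fintype.card {i // ε i = j} ≤ D := fun j => (hlin j).fintype_card_le_finrank
  have hcsum : ∑ j : Fin r, Fintype.card {i // ε i = j} = ∑ _j : Fin r, D := by
    have h2 : ∑ j : Fin r, Fintype.card {i // ε i = j} = Fintype.card ι := by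
      rw [← Fintype.card_sigma]
      exact Fintype.card_congr (Equiv.sigmaFiberEquiv ε)
    rw [h2, hcard]
    simp
  have hceq : ∀ j, Fintype.card {i // ε i = j} = D := by
    intro j
    exact (Finset.sum_eq_sum_iff_of_le (fun j _ => hcle j)).mp hcsum j (Finset.mem_univ j)
  refine ⟨ε, hceq, hlin, ?_, b.equivFun.symm z, fun i => a (e.symm i), fun i => ha _, ?_⟩
  · intro j
    exact (hlin j).span_eq_top_of_card_eq_finrank' (hceq j)
  · intro j
    apply b.equivFun.injective
    rw [LinearEquiv.apply_symm_apply, ← hz j, map_sum]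
    have h2 : ∑ i : Fin r × Fin D, (if ε' i = j then a i else 0) • b.equivFun (y (e i))
        = ∑ i : ι, (if ε i = j then a (e.symm i) else 0) • b.equivFun (y i) := by
      rw [← Equiv.sum_comp e.symm]
      refine Finset.sum_congr rfl fun i _ => ?_
      simp [hε]
    have h3 : ∑ i : {i // ε i = j}, b.equivFun (a (e.symm i) • y i)
        = ∑ i : ι, (if ε i = j then a (e.symm i) else 0) • b.equivFun (y i) := by
      have h4 : ∀ i : ι, (if ε i = j then a (e.symm i) else 0) • b.equivFun (y i)
          = if ε i = j then b.equivFun (a (e.symm i) • y i) else 0 := by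
        intro i
        split_ifs <;> simp
      simp_rw [h4]
      rw [← Finset.sum_filter]
      exact (Finset.sum_subtype (Finset.univ.filter fun i => ε i = j) (by simp)
        (fun i => b.equivFun (a (e.symm i) • y i))).symm
    rw [h3]
    exact h2.symm

end Pool.Agent.KL
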