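import Pool.Agent.Lib_helper86.KL.Defs

/-!
Calculus part: integral of `J h(phi)` vanishes if `phi` misses a point.
-/

set_option linter.unusedSectionVars false

namespace Pool.Agent.KL

open MeasureTheory Filter Topology
open scoped BigOperators

variable {ι : Type*} [Fintype ι] [DecidableEq ι]

lemma phi_smul (p q : ι → ι → ℝ) (t : ι → ℝ) {s : ℝ} (hs : 0 ≤ s) :
    phi p q (s • t) = s ^ 2 • phi p q t := by
  unfold phi
  rw [Finset.smul_sum]
  refine Finset.sum_congr rfl fun i _ => ?_
  have h1 : max (s * t i) 0 = s * max (t i) 0 := by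
    rw [mul_max_of_nonneg _ _ hs, mul_zero]
  have h2 : max (-(s * t i)) 0 = s * max (-t i) 0 := by
    rw [mul_max_of_nonneg _ _ hs, mul_zero, mul_neg]
  simp only [Pi.smul_apply, smul_eq_mul, h1, h2, mul_pow, smul_add, smul_smul]

lemma phi_continuous (p q : ι → ι → ℝ) : Continuous (phi p q) := by
  unfold phi
  fun_prop

lemma cvec_continuous (p q : ι → ι → ℝ) (i : ι) : Continuous fun t => cvec p q t i := by
  unfold cvec
  fun_prop

lemma jac_continuous (p q : ι → ι → ℝ) : Continuous (jac p q) := by
  unfold jac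
  apply Continuous.matrix_det
  refine continuous_matrix fun a i => ?_
  exact (continuous_apply a).comp (cvec_continuous p q i)

/-- derivative of the square of the positive part -/
lemma hasDerivAt_pos_sq (s : ℝ) : HasDerivAt (fun u : ℝ => (max u 0) ^ 2) (2 * max s 0) s := by
  rcases lt_trichotomy s 0 with h | h | h
  · have : (fun u : ℝ => (max u 0) ^ 2) =ᶠ[𝓝 s] fun _ => 0 := by
      filter_upwards [gt_mem_nhds h] with u hu
      simp [max_eq_right hu.le]
    rw [max_eq_right h.le, mul_zero]
    exact (hasDerivAt_const s (0:ℝ)).congr_of_eventuallyEq this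
  · subst h
    simp only [max_self, mul_zero]
    rw [hasDerivAt_iff_isLittleO]
    simp only [max_self, ne_eq, OfNat.ofNat_ne_zero, not_false_eq_true, zero_pow, sub_zero,
      smul_zero]
    have h1 : (fun x' : ℝ => (max x' 0) ^ 2) =O[𝓝 0] fun x' : ℝ => x' ^ 2 := by
      refine Asymptotics.IsBigO.of_bound 1 (Eventually.of_forall fun u => ?_)
      rw [one_mul, Real.norm_eq_abs, Real.norm_eq_abs, abs_of_nonneg (sq_nonneg _),
        abs_of_nonneg (sq_nonneg _)]
      rcases le_total u 0 with hu | hu
      · rw [max_eq_right hu]; simpa using sq_nonneg u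
      · rw [max_eq_left hu]
    refine h1.trans_isLittleO ?_
    exact Asymptotics.isLittleO_pow_id (by norm_num)
  · have : (fun u : ℝ => (max u 0) ^ 2) =ᶠ[𝓝 s] fun u => u ^ 2 := by
      filter_upwards [lt_mem_nhds h] with u hu
      simp [max_eq_left hu.le]
    rw [max_eq_left h.le]
    have h2 := (hasDerivAt_pow 2 s)
    simp only [Nat.cast_ofNat, Nat.add_one_sub_one, pow_one] at h2
    exact h2.congr_of_eventuallyEq this

/-- Frechet derivative of `phi` -/
noncomputable def dphi (p q : ι → ι → ℝ) (t : ι → ℝ) : (ι → ℝ) →L[ℝ] (ι → ℝ) :=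
  ∑ i, (ContinuousLinearMap.proj (R := ℝ) (φ := fun _ : ι => ℝ) i).smulRight (cvec p q t i)

lemma dphi_single (p q : ι → ι → ℝ) (t : ι → ℝ) (i : ι) :
    dphi p q t (Pi.single i 1) = cvec p q t i := by
  unfold dphi
  rw [_root_.sum_apply]
  rw [Finset.sum_eq_single i]
  · simp
  · intro j _ hj
    simp [Pi.single_eq_of_ne hj]
  · simp

lemma phi_hasFDerivAt (p q : ι → ι → ℝ) (t : ι → ℝ) :
    HasFDerivAt (phi p q) (dphi p q t) t := by
  unfold phi dphi
  apply HasFDerivAt.fun_sum
  intro i _
  have h1 : HasFDerivAt (fun t : ι → ℝ => (max (t i) 0) ^ 2)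
      ((2 * max (t i) 0) • (ContinuousLinearMap.proj (R := ℝ) (φ := fun _ : ι => ℝ) i)) t := by
    have := (hasDerivAt_pos_sq (t i)).hasFDerivAt.comp t
      (ContinuousLinearMap.proj (R := ℝ) (φ := fun _ : ι => ℝ) i).hasFDerivAt
    refine this.congr_fderiv ?_
    ext v
    simp [mul_comm]
  have h2 : HasFDerivAt (fun t : ι → ℝ => (max (-t i) 0) ^ 2)
      ((-(2 * max (-t i) 0)) • (ContinuousLinearMap.proj (R := ℝ) (φ := fun _ : ι => ℝ) i)) t := by
    have := (hasDerivAt_pos_sq (-t i)).hasFDerivAt.comp t
      (-(ContinuousLinearMap.proj (R := ℝ) (φ := fun _ : ι => ℝ) i)).hasFDerivAt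
    refine this.congr_fderiv ?_
    ext v
    simp [mul_comm]
  have h3 := (h1.smul_const (p i)).add (h2.smul_const (q i))
  refine h3.congr_fderiv ?_
  ext v a
  simp [cvec]
  ring

lemma dphi_continuous (p q : ι → ι → ℝ) : Continuous (dphi p q) := by
  unfold dphi
  refine continuous_finsetSum _ fun i _ => ?_
  exact (ContinuousLinearMap.smulRightL ℝ (ι → ℝ) (ι → ℝ)
    (ContinuousLinearMap.proj (R := ℝ) (φ := fun _ : ι => ℝ) i)).continuous.comp
    (cvec_continuous p q i)


lemma phi_coercive (p q : ι → ι → ℝ) (hPF : ∀ t, phi p q t = 0 → t = 0) :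
    ∃ k : ℝ, 0 < k ∧ ∀ t, k * ‖t‖ ^ 2 ≤ ‖phi p q t‖ := by
  rcases (Metric.sphere (0 : ι → ℝ) 1).eq_empty_or_nonempty with hS | hS
  · refine ⟨1, one_pos, fun t => ?_⟩
    have ht : t = 0 := by
      by_contra h
      have : (‖t‖⁻¹ • t) ∈ Metric.sphere (0 : ι → ℝ) 1 := by
        simp [norm_smul, inv_mul_cancel₀ (norm_ne_zero_iff.mpr h)]
      rw [hS] at this
      exact this
    subst ht
    simp
  · obtain ⟨u, hu, hmin⟩ := (isCompact_sphere (0 : ι → ℝ) 1).exists_isMinOn hS
      ((phi_continuous p q).norm.continuousOn)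
    have hu1 : ‖u‖ = 1 := by simpa using hu
    refine ⟨‖phi p q u‖, ?_, fun t => ?_⟩
    · rw [norm_pos_iff]
      intro h
      have := hPF u h
      rw [this, norm_zero] at hu1
      exact zero_ne_one hu1
    · by_cases h : t = 0
      · subst h; simp
      · have ht : 0 < ‖t‖ := norm_pos_iff.mpr h
        have hmem : (‖t‖⁻¹ • t) ∈ Metric.sphere (0 : ι → ℝ) 1 := by
          simp [norm_smul, inv_mul_cancel₀ (norm_ne_zero_iff.mpr h)]
        have h1 : ‖phi p q u‖ ≤ ‖phi p q (‖t‖⁻¹ • t)‖ := hmin hmem
        rw [phi_smul p q t (inv_nonneg.mpr ht.le), norm_smul, Real.norm_eq_abs,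
          abs_of_nonneg (by positivity)] at h1
        calc ‖phi p q u‖ * ‖t‖ ^ 2 ≤ ((‖t‖⁻¹) ^ 2 * ‖phi p q t‖) * ‖t‖ ^ 2 :=
              mul_le_mul_of_nonneg_right h1 (by positivity)
          _ = ‖phi p q t‖ := by field_simp

lemma bounded_of_coercive {k R : ℝ} (hk : 0 < k) {t : ι → ℝ} (h : k * ‖t‖ ^ 2 ≤ R) :
    ‖t‖ ≤ R / k + 1 := by
  have h1 : ‖t‖ ^ 2 ≤ R / k := by
    rw [le_div_iff₀ hk]; linarith
  nlinarith [norm_nonneg t, sq_nonneg (‖t‖ - 1)]

lemma comp_phi_compact {p q : ι → ι → ℝ} (hPF : ∀ t, phi p q t = 0 → t = 0)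
    {M : Type*} [Zero M] {G : (ι → ℝ) → M} (hG : HasCompactSupport G) :
    HasCompactSupport (fun t => G (phi p q t)) := by
  obtain ⟨k, hk, hk2⟩ := phi_coercive p q hPF
  obtain ⟨R, hR⟩ := hG.isCompact.isBounded.subset_closedBall 0
  refine HasCompactSupport.intro (isCompact_closedBall (0 : ι → ℝ) (R / k + 1)) fun t ht => ?_
  apply image_eq_zero_of_notMem_tsupport
  intro h
  apply ht
  have h1 : ‖phi p q t‖ ≤ R := by simpa using hR h
  simpa using bounded_of_coercive hk ((hk2 t).trans h1)

lemma cramer_line (p q : ι → ι → ℝ) (v : ι → ℝ) (i : ι) (t : ι → ℝ) :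
    HasLineDerivAt ℝ (fun t => ((Matrix.of fun a b => cvec p q t b a).updateCol i v).det) 0 t
      (Pi.single i 1) := by
  unfold HasLineDerivAt
  have : (fun s : ℝ => ((Matrix.of fun a b => cvec p q (t + s • Pi.single i 1) b a).updateCol
      i v).det) = fun _ => ((Matrix.of fun a b => cvec p q t b a).updateCol i v).det := by
    funext s
    congr 1
    ext a b
    by_cases hb : b = i
    · subst hb; simp
    · rw [Matrix.updateCol_ne hb, Matrix.updateCol_ne hb]
      simp [cvec, Pi.single_eq_of_ne hb]
  rw [this]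
  exact hasDerivAt_const _ _

theorem int_zero {p q : ι → ι → ℝ} (hPF : ∀ t, phi p q t = 0 → t = 0)
    {g : (ι → ℝ) → ℝ} (hg : ContDiff ℝ 1 g) (hgc : HasCompactSupport g) (v : ι → ℝ) :
    ∫ t, jac p q t * fderiv ℝ g (phi p q t) v = 0 := by
  set K : ι → (ι → ℝ) → ℝ := fun i t =>
    ((Matrix.of fun a b => cvec p q t b a).updateCol i v).det with hK
  have hKc : ∀ i, Continuous (K i) := by
    intro i
    apply Continuous.matrix_det
    refine Continuous.matrix_updateCol i ?_ continuous_const
    refine continuous_matrix fun a b => ?_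
    exact (continuous_apply a).comp (cvec_continuous p q b)
  have hid : ∀ t, jac p q t * fderiv ℝ g (phi p q t) v
      = ∑ i, K i t * fderiv ℝ g (phi p q t) (cvec p q t i) := by
    intro t
    have h1 : jac p q t • v = ∑ i, K i t • cvec p q t i := by
      have h2 := Matrix.mulVec_cramer (Matrix.of fun a b => cvec p q t b a) v
      have h3 : ∀ i, (Matrix.of fun a b => cvec p q t b a).cramer v i = K i t := by
        intro i
        rw [Matrix.cramer_apply]
      unfold jac
      rw [← h2]
      funext a
      simp only [Matrix.mulVec, dotProduct, Matrix.of_apply, Finset.sum_apply, Pi.smul_apply,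
        smul_eq_mul, h3]
      exact Finset.sum_congr rfl fun i _ => mul_comm _ _
    rw [← smul_eq_mul, ← map_smul, h1, map_sum]
    refine Finset.sum_congr rfl fun i _ => ?_
    rw [map_smul, smul_eq_mul]
  simp_rw [hid]
  have hcomp : ∀ i, HasCompactSupport
      (fun t => K i t * fderiv ℝ g (phi p q t) (cvec p q t i)) := by
    intro i
    apply HasCompactSupport.mul_left
    have h1 := comp_phi_compact hPF (hgc.fderiv (𝕜 := ℝ))
    refine h1.mono ?_
    intro t ht h0
    apply ht
    show fderiv ℝ g (phi p q t) (cvec p q t i) = 0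
    simp [h0]
  have hfd : Continuous (fderiv ℝ g) := hg.continuous_fderiv (by norm_num)
  have hcont : ∀ i, Continuous (fun t => K i t * fderiv ℝ g (phi p q t) (cvec p q t i)) := by
    intro i
    refine (hKc i).mul ?_
    exact (hfd.comp (phi_continuous p q)).clm_apply (cvec_continuous p q i)
  rw [integral_finsetSum]
  · refine Finset.sum_eq_zero fun i _ => ?_
    have hgφ : HasCompactSupport fun t => g (phi p q t) := comp_phi_compact hPF hgc
    have hgφc : Continuous fun t => g (phi p q t) := hg.continuous.comp (phi_continuous p q)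
    have := integral_bilinear_hasLineDerivAt_right_eq_neg_left_of_integrable
      (μ := (volume : Measure (ι → ℝ))) (f := K i) (f' := fun _ => (0:ℝ))
      (g := fun t => g (phi p q t))
      (g' := fun t => fderiv ℝ g (phi p q t) (cvec p q t i)) (v := Pi.single i 1)
      (B := ContinuousLinearMap.mul ℝ ℝ) (by simp)
      (by simpa using (hcont i).integrable_of_hasCompactSupport (hcomp i))
      (by
        have h5 : Integrable (fun t => K i t * g (phi p q t)) volume :=
          (((hKc i).mul hgφc).integrable_of_hasCompactSupport (HasCompactSupport.mul_left hgφ))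
        simpa using h5)
      (fun t _ => cramer_line p q v i t)
      (fun t _ => by
        have h1 : HasFDerivAt (fun t => g (phi p q t))
            ((fderiv ℝ g (phi p q t)).comp (dphi p q t)) t :=
          ((hg.differentiable (by norm_num)) (phi p q t)).hasFDerivAt.comp t
            (phi_hasFDerivAt p q t)
        have h2 := h1.hasLineDerivAt (Pi.single i 1)
        simpa [dphi_single] using h2)
    simpa using this
  · intro i _
    exact (hcont i).integrable_of_hasCompactSupport (hcomp i)


/-- if `phi` misses a point then the weighted integral of every test function vanishes -/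
theorem int_eq_zero_of_not_range {p q : ι → ι → ℝ} (hPF : ∀ t, phi p q t = 0 → t = 0)
    {h : (ι → ℝ) → ℝ} (hh : ContDiff ℝ 1 h) (hhc : HasCompactSupport h) {c : ι → ℝ}
    (hc : c ∉ Set.range (phi p q)) :
    ∫ t, jac p q t * h (phi p q t) = 0 := by
  obtain ⟨k, hk, hk2⟩ := phi_coercive p q hPF
  -- distance from c to the range
  obtain ⟨η, hη, hηt⟩ : ∃ η : ℝ, 0 < η ∧ ∀ t, η ≤ ‖phi p q t - c‖ := by
    have hcont : Continuous fun t => ‖phi p q t - c‖ :=
      ((phi_continuous p q).sub continuous_const).norm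
    obtain ⟨t0, ht0⟩ := hcont.exists_forall_le' (0 : ι → ℝ) (by
      have hK : IsCompact (Metric.closedBall (0 : ι → ℝ) ((2 * ‖c‖) / k + 1)) :=
        isCompact_closedBall _ _
      filter_upwards [hK.compl_mem_cocompact] with t ht
      have h0 : phi p q (0 : ι → ℝ) = 0 := by
        have := phi_smul p q (0 : ι → ℝ) (le_refl (0:ℝ))
        simpa using this
      rw [h0, zero_sub, norm_neg]
      by_contra hlt
      push Not at hlt
      apply ht
      have h1 : ‖phi p q t‖ ≤ ‖phi p q t - c‖ + ‖c‖ := by
        calc ‖phi p q t‖ = ‖(phi p q t - c) + c‖ := by rw [sub_add_cancel]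
          _ ≤ _ := norm_add_le _ _
      have h2 : k * ‖t‖ ^ 2 ≤ 2 * ‖c‖ := (hk2 t).trans (by linarith)
      simpa using bounded_of_coercive hk h2)
    refine ⟨‖phi p q t0 - c‖, ?_, ht0⟩
    rw [norm_pos_iff, sub_ne_zero]
    rintro rfl
    exact hc ⟨t0, rfl⟩
  obtain ⟨R, hR⟩ := hhc.isCompact.isBounded.subset_closedBall 0
  have hR0 : ∀ w : ι → ℝ, R < ‖w‖ → h w = 0 := by
    intro w hw
    apply image_eq_zero_of_notMem_tsupport
    intro h1
    have : ‖w‖ ≤ R := by simpa using hR h1
    linarith
  have hRd : ∀ w : ι → ℝ, R < ‖w‖ → fderiv ℝ h w = 0 := by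
    intro w hw
    apply image_eq_zero_of_notMem_tsupport
    intro h1
    have h2 := tsupport_fderiv_subset ℝ h1
    have : ‖w‖ ≤ R := by simpa using hR h2
    linarith
  have hfd : Continuous (fderiv ℝ h) := hh.continuous_fderiv (by norm_num)
  have hJ := jac_continuous p q
  have hphi := phi_continuous p q
  set F : ℝ → (ι → ℝ) → ℝ := fun s t => jac p q t * h (phi p q t - s • c) with hF
  set F' : ℝ → (ι → ℝ) → ℝ := fun s t => jac p q t * (fderiv ℝ h (phi p q t - s • c) (-c)) with hF'
  have hFc : ∀ s, Continuous (F s) := fun s =>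
    hJ.mul (hh.continuous.comp (hphi.sub continuous_const))
  have hF'c : ∀ s, Continuous (F' s) := fun s =>
    hJ.mul ((hfd.comp (hphi.sub continuous_const)).clm_apply continuous_const)
  -- supports
  have hsupp : ∀ M : ℝ, ∀ s : ℝ, |s| ≤ M → ∀ t : ι → ℝ,
      (R + M * ‖c‖) / k + 1 < ‖t‖ → R < ‖phi p q t - s • c‖ := by
    intro M s hs t ht
    by_contra hle
    push Not at hle
    have h1 : ‖phi p q t‖ ≤ ‖phi p q t - s • c‖ + ‖s • c‖ := by
      calc ‖phi p q t‖ = ‖(phi p q t - s • c) + s • c‖ := by rw [sub_add_cancel]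
        _ ≤ _ := norm_add_le _ _
    have h2 : ‖s • c‖ ≤ M * ‖c‖ := by
      rw [norm_smul, Real.norm_eq_abs]
      exact mul_le_mul_of_nonneg_right hs (norm_nonneg _)
    have h3 := bounded_of_coercive hk ((hk2 t).trans (by linarith : ‖phi p q t‖ ≤ R + M * ‖c‖))
    linarith
  have hFs : ∀ s, HasCompactSupport (F s) := by
    intro s
    refine HasCompactSupport.intro
      (isCompact_closedBall (0 : ι → ℝ) ((R + |s| * ‖c‖) / k + 1)) fun t ht => ?_
    have ht' : (R + |s| * ‖c‖) / k + 1 < ‖t‖ := by
      rw [Metric.mem_closedBall, dist_zero_right, not_le] at ht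
      exact ht
    simp only [hF]
    rw [hR0 _ (hsupp |s| s le_rfl t ht'), mul_zero]
  have hderiv : ∀ s, HasDerivAt (fun s => ∫ t, F s t) 0 s := by
    intro s
    -- bounds
    set ρ : ℝ := (R + (|s| + 1) * ‖c‖) / k + 1 with hρ
    obtain ⟨C1, hC1⟩ := (isCompact_closedBall (0 : ι → ℝ) ρ).exists_bound_of_continuousOn
      hJ.continuousOn
    obtain ⟨C2, hC2⟩ := (hhc.fderiv (𝕜 := ℝ)).exists_bound_of_continuous hfd
    have hC2' : 0 ≤ C2 := (norm_nonneg _).trans (hC2 0)
    have hmain := hasDerivAt_integral_of_dominated_loc_of_deriv_le (μ := (volume : Measure (ι → ℝ)))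
      (F := F) (F' := F') (x₀ := s) (s := Metric.ball s 1)
      (bound := (Metric.closedBall (0 : ι → ℝ) ρ).indicator fun _ => C1 * (C2 * ‖c‖))
      (Metric.ball_mem_nhds s one_pos)
      (Eventually.of_forall fun s => (hFc s).aestronglyMeasurable)
      ((hFc s).integrable_of_hasCompactSupport (hFs s))
      (hF'c s).aestronglyMeasurable
      (Eventually.of_forall fun t s' hs' => by
        have hs'' : |s'| ≤ |s| + 1 := by
          have h1 : |s' - s| < 1 := by simpa [Real.dist_eq] using hs'
          have h2 : |s'| ≤ |s' - s| + |s| := by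
            calc |s'| = |(s' - s) + s| := by rw [sub_add_cancel]
              _ ≤ _ := abs_add_le _ _
          linarith
        by_cases ht : t ∈ Metric.closedBall (0 : ι → ℝ) ρ
        · rw [Set.indicator_of_mem ht]
          simp only [hF']
          rw [norm_mul]
          refine mul_le_mul (hC1 t ht) ?_ (norm_nonneg _) ((norm_nonneg _).trans (hC1 t ht))
          refine (ContinuousLinearMap.le_opNorm _ _).trans ?_
          rw [norm_neg]
          exact mul_le_mul_of_nonneg_right (hC2 _) (norm_nonneg _)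
        · rw [Set.indicator_of_notMem ht]
          have ht' : ρ < ‖t‖ := by
            rw [Metric.mem_closedBall, dist_zero_right, not_le] at ht
            exact ht
          simp only [hF']
          rw [hRd _ (hsupp (|s| + 1) s' hs'' t ht')]
          simp)
      ((integrable_indicator_iff measurableSet_closedBall).mpr
        (integrableOn_const (by
          exact (measure_closedBall_lt_top).ne)))
      (Eventually.of_forall fun t s' _ => by
        have h1 : HasDerivAt (fun s : ℝ => phi p q t - s • c) (-c) s' := by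
          have := ((hasDerivAt_id s').smul_const c).const_sub (phi p q t)
          simpa using this
        have h2 : HasFDerivAt h (fderiv ℝ h (phi p q t - s' • c)) (phi p q t - s' • c) :=
          ((hh.differentiable (by norm_num)) _).hasFDerivAt
        exact (h2.comp_hasDerivAt s' h1).const_mul (jac p q t))
    have hz : ∫ t, F' s t = 0 := by
      have hg : ContDiff ℝ 1 (fun w => h (w - s • c)) := hh.comp (contDiff_id.sub contDiff_const)
      have hgc : HasCompactSupport (fun w => h (w - s • c)) := by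
        have := hhc.comp_homeomorph (Homeomorph.subRight (s • c))
        exact this
      have h0 := int_zero hPF hg hgc (-c)
      rw [← h0]
      congr 1
      funext t
      simp only [hF']
      congr 1
      have : fderiv ℝ (fun w => h (w - s • c)) (phi p q t) = fderiv ℝ h (phi p q t - s • c) := by
        rw [fderiv_comp_sub]
      rw [this]
    rw [← hz]
    exact hmain.2
  have hconst : ∀ s, ∫ t, F s t = ∫ t, F 0 t := by
    intro s
    exact is_const_of_deriv_eq_zero (fun s => (hderiv s).differentiableAt)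
      (fun s => (hderiv s).deriv) s 0
  have hF0 : ∫ t, F 0 t = ∫ t, jac p q t * h (phi p q t) := by
    simp [hF]
  rw [← hF0, ← hconst ((|R| + 1) / η)]
  apply integral_eq_zero_of_ae
  refine Eventually.of_forall fun t => ?_
  simp only [hF, Pi.zero_apply]
  set s := (|R| + 1) / η with hs
  have hs0 : 0 < s := by positivity
  have hlt : R < ‖phi p q t - s • c‖ := by
    have h1 : phi p q t = s • phi p q ((Real.sqrt s)⁻¹ • t) := by
      rw [phi_smul p q t (by positivity), smul_smul, inv_pow, Real.sq_sqrt hs0.le,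
        mul_inv_cancel₀ hs0.ne', one_smul]
    rw [h1, ← smul_sub, norm_smul, Real.norm_eq_abs, abs_of_pos hs0]
    calc R < |R| + 1 := by linarith [le_abs_self R]
      _ = s * η := by rw [hs]; field_simp
      _ ≤ _ := mul_le_mul_of_nonneg_left (hηt _) hs0.le
  rw [hR0 _ hlt, mul_zero]

end Pool.Agent.KL
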