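import Pool.Agent.Lib_helper86.KL.Defs

/-!
Minimal distance argument: under `TFree` some rainbow family is linearly independent.
-/

set_option linter.unusedSectionVars false

namespace Pool.Agent.KL

open scoped BigOperators

variable {ι : Type*} [Fintype ι] [DecidableEq ι] {r D : ℕ}

lemma sum_blk (y : Fin D → ℝ) : ∑ j : Fin r, blk j y = dia y := by
  funext p
  simp [blk, dia, Finset.sum_apply]

lemma sum_col (y : Fin D → ℝ) : ∑ k : Option (Fin r), col k y = 0 := by
  rw [Fintype.sum_option]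
  simp only [col]
  rw [sum_blk]
  simp

lemma sum_col_eq_zero_iff (x : ι → Fin D → ℝ) (σ : ι → Option (Fin r)) (t : ι → ℝ) :
    (∀ j : Fin r, ∑ i, (if σ i = some j then t i else 0) • x i
      = ∑ i, (if σ i = none then t i else 0) • x i) ↔ ∑ i, t i • col (σ i) (x i) = 0 := by
  have key : ∀ (j : Fin r) (a : Fin D), (∑ i, t i • col (σ i) (x i)) (j, a)
      = (∑ i, (if σ i = some j then t i else 0) • x i) a
        - (∑ i, (if σ i = none then t i else 0) • x i) a := by
    intro j a
    simp only [Finset.sum_apply, Pi.smul_apply, smul_eq_mul]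
    rw [← Finset.sum_sub_distrib]
    refine Finset.sum_congr rfl fun i _ => ?_
    rcases hσ : σ i with _ | k
    · simp [col, dia]
    · by_cases hk : j = k
      · subst hk; simp [col, blk]
      · have hk' : ¬ k = j := fun h => hk h.symm
        simp [col, blk, hk, hk']
  constructor
  · intro h
    funext ⟨j, a⟩
    rw [key, h j, sub_self]
    rfl
  · intro h j
    funext a
    have := key j a
    rw [h] at this
    simp only [Pi.zero_apply] at this
    linarith

lemma TFree.eq_zero {x : ι → Fin D → ℝ} (hx : TFree r x) (σ : ι → Option (Fin r)) (t : ι → ℝ)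
    (ht : ∀ i, 0 ≤ t i) (h : ∑ i, t i • col (σ i) (x i) = 0) : ∀ i, t i = 0 :=
  hx σ t ht ((sum_col_eq_zero_iff x σ t).mpr h)

theorem exists_indep {x : ι → Fin D → ℝ} (hx : TFree r x) :
    ∃ σ : ι → Option (Fin r), LinearIndependent ℝ (fun i => col (σ i) (x i)) := by
  classical
  rcases isEmpty_or_nonempty ι with hι | hι
  · exact ⟨fun _ => none, linearIndependent_empty_type⟩
  set Z : (ι → Option (Fin r)) → (ι → ℝ) → (Fin r × Fin D → ℝ) :=
    fun σ t => ∑ i, t i • col (σ i) (x i) with hZ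
  have hZc : ∀ σ, Continuous fun t => Z σ t ⬝ᵥ Z σ t := by
    intro σ
    have : Continuous fun t => Z σ t := by
      simp only [hZ]
      fun_prop
    simp only [dotProduct]
    fun_prop
  have hmin1 : ∀ σ : ι → Option (Fin r), ∃ t ∈ stdSimplex ℝ ι, ∀ t' ∈ stdSimplex ℝ ι,
      Z σ t ⬝ᵥ Z σ t ≤ Z σ t' ⬝ᵥ Z σ t' := by
    intro σ
    obtain ⟨t, ht, hm⟩ := (isCompact_stdSimplex ℝ ι).exists_isMinOn
      ⟨_, single_mem_stdSimplex ℝ (Classical.arbitrary ι)⟩ (hZc σ).continuousOn
    exact ⟨t, ht, fun t' ht' => hm ht'⟩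
  choose tm htm hmt using hmin1
  obtain ⟨σ, hσ⟩ := Finite.exists_min fun σ => Z σ (tm σ) ⬝ᵥ Z σ (tm σ)
  set t := tm σ with ht
  have htS : t ∈ stdSimplex ℝ ι := htm σ
  set z := Z σ t with hz
  set Q := z ⬝ᵥ z with hQ
  have hmin : ∀ σ' : ι → Option (Fin r), ∀ t' ∈ stdSimplex ℝ ι, Q ≤ Z σ' t' ⬝ᵥ Z σ' t' :=
    fun σ' t' ht' => (hσ σ').trans (hmt σ' t' ht')
  have hz0 : z ≠ 0 := by
    intro h0
    have h1 := hx.eq_zero σ t htS.1 h0
    have h2 := htS.2
    simp only [h1, Finset.sum_const_zero] at h2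
    exact zero_ne_one h2
  have hQpos : 0 < Q := by
    have h1 : 0 ≤ Q := Finset.sum_nonneg fun i _ => mul_self_nonneg _
    rcases h1.lt_or_eq with h | h
    · exact h
    · exact absurd (dotProduct_self_eq_zero.mp h.symm) hz0
  -- claim A
  have hA : ∀ σ' : ι → Option (Fin r), ∀ t' ∈ stdSimplex ℝ ι, Z σ' t' = z → ∀ i,
      Q ≤ z ⬝ᵥ col (σ' i) (x i) := by
    intro σ' t' ht' hzz i
    set w := col (σ' i) (x i) with hw
    by_contra hlt
    push Not at hlt
    set δ := Q - z ⬝ᵥ w with hδ
    have hδp : 0 < δ := by linarith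
    set N := (z - w) ⬝ᵥ (z - w) with hN
    have hNn : 0 ≤ N := Finset.sum_nonneg fun i _ => mul_self_nonneg _
    have hNe : N = Q - 2 * (z ⬝ᵥ w) + w ⬝ᵥ w := by
      rw [hN, sub_dotProduct, dotProduct_sub, dotProduct_sub, dotProduct_comm w z]
      ring
    set s := δ / (δ + N) with hs
    have hs0 : 0 < s := by positivity
    have hs1 : s ≤ 1 := by
      rw [hs, div_le_one (by positivity)]
      linarith
    have hts : (1 - s) • t' + s • Pi.single i (1:ℝ) ∈ stdSimplex ℝ ι :=
      (convex_stdSimplex ℝ ι) ht' (single_mem_stdSimplex ℝ i) (by linarith) hs0.le (by ring)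
    have hZs : Z σ' ((1 - s) • t' + s • Pi.single i (1:ℝ)) = (1 - s) • z + s • w := by
      rw [← hzz]
      simp only [hZ, Pi.add_apply, Pi.smul_apply, smul_eq_mul, add_smul, Finset.sum_add_distrib,
        Finset.smul_sum, smul_smul]
      congr 1
      rw [Finset.sum_eq_single i]
      · simp [hw]
      · intro b _ hb
        simp [Pi.single_eq_of_ne hb]
      · simp
    have h1 := hmin σ' _ hts
    rw [hZs] at h1
    have h2 : ((1 - s) • z + s • w) ⬝ᵥ ((1 - s) • z + s • w)
        = Q - s * (2 * δ - s * N) := by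
      rw [hNe, hδ]
      simp only [add_dotProduct, dotProduct_add, smul_dotProduct, dotProduct_smul, smul_eq_mul,
        dotProduct_comm w z]
      rw [← hQ]
      ring
    rw [h2] at h1
    have h3 : s * N ≤ δ := by
      rw [hs, div_mul_eq_mul_div, div_le_iff₀ (by positivity)]
      nlinarith
    have h4 : 0 < s * (2 * δ - s * N) := mul_pos hs0 (by linarith)
    linarith
  -- claim B
  have hB : ∀ t' ∈ stdSimplex ℝ ι, Z σ t' = z → ∀ i, t' i ≠ 0 := by
    intro t' ht' hzz i h0
    have h1 : ∀ k : Option (Fin r), Q ≤ z ⬝ᵥ col k (x i) := by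
      intro k
      have h2 : Z (Function.update σ i k) t' = z := by
        rw [← hzz]
        simp only [hZ]
        refine Finset.sum_congr rfl fun b _ => ?_
        by_cases hb : b = i
        · subst hb; simp [h0]
        · rw [Function.update_of_ne hb]
      have h3 := hA _ t' ht' h2 i
      rwa [Function.update_self] at h3
    have h2 : ∑ k : Option (Fin r), z ⬝ᵥ col k (x i) = 0 := by
      rw [← dotProduct_sum, sum_col, dotProduct_zero]
    have h3 : ∑ _k : Option (Fin r), Q ≤ ∑ k : Option (Fin r), z ⬝ᵥ col k (x i) :=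
      Finset.sum_le_sum fun k _ => h1 k
    rw [h2, Finset.sum_const, nsmul_eq_mul] at h3
    have h4 : (0:ℝ) < (Finset.univ : Finset (Option (Fin r))).card := by
      exact_mod_cast Finset.card_pos.mpr ⟨none, Finset.mem_univ _⟩
    nlinarith
  have htpos : ∀ i, 0 < t i := fun i => lt_of_le_of_ne (htS.1 i) (Ne.symm (hB t htS rfl i))
  -- claim C
  have hC : ∀ i, z ⬝ᵥ col (σ i) (x i) = Q := by
    have h1 : ∑ i, t i * (z ⬝ᵥ col (σ i) (x i) - Q) = 0 := by
      have h2 : z ⬝ᵥ z = ∑ i, t i * (z ⬝ᵥ col (σ i) (x i)) := by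
        have h5 : z ⬝ᵥ (∑ i, t i • col (σ i) (x i)) = ∑ i, t i * (z ⬝ᵥ col (σ i) (x i)) := by
          rw [dotProduct_sum]
          exact Finset.sum_congr rfl fun i _ => by rw [dotProduct_smul, smul_eq_mul]
        exact h5
      simp only [mul_sub, Finset.sum_sub_distrib]
      rw [← h2, ← Finset.sum_mul, htS.2, one_mul, ← hQ, sub_self]
    have h3 := (Finset.sum_eq_zero_iff_of_nonneg (fun i _ =>
      mul_nonneg (htS.1 i) (sub_nonneg.mpr (hA σ t htS rfl i)))).mp h1
    intro i
    have h4 := h3 i (Finset.mem_univ i)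
    rcases mul_eq_zero.mp h4 with h | h
    · exact absurd h (htpos i).ne'
    · linarith
  refine ⟨σ, ?_⟩
  rw [Fintype.linearIndependent_iff]
  intro a ha
  by_contra hne
  push Not at hne
  have hsum : ∑ i, a i = 0 := by
    have h1 : z ⬝ᵥ (∑ i, a i • col (σ i) (x i)) = Q * ∑ i, a i := by
      rw [dotProduct_sum, Finset.mul_sum]
      refine Finset.sum_congr rfl fun i _ => ?_
      rw [dotProduct_smul, hC i, smul_eq_mul, mul_comm]
    rw [ha, dotProduct_zero] at h1
    rcases mul_eq_zero.mp h1.symm with h | h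
    · exact absurd h hQpos.ne'
    · exact h
  have hneg : (Finset.univ.filter fun i => a i < 0).Nonempty := by
    by_contra h
    rw [Finset.not_nonempty_iff_eq_empty, Finset.filter_eq_empty_iff] at h
    have h2 : ∀ i ∈ Finset.univ, 0 ≤ a i := fun i hi => not_lt.mp (h hi)
    have h3 := (Finset.sum_eq_zero_iff_of_nonneg h2).mp hsum
    obtain ⟨i, hi⟩ := hne
    exact hi (h3 i (Finset.mem_univ i))
  obtain ⟨i0, hi0, hi0min⟩ := Finset.exists_min_image _ (fun i => t i / (-a i)) hneg
  have ha0 : a i0 < 0 := (Finset.mem_filter.mp hi0).2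
  set s := t i0 / (-a i0) with hs
  have hs0 : 0 < s := div_pos (htpos i0) (by linarith)
  have ht' : t + s • a ∈ stdSimplex ℝ ι := by
    constructor
    · intro i
      simp only [Pi.add_apply, Pi.smul_apply, smul_eq_mul]
      rcases le_or_gt 0 (a i) with h | h
      · have := (htpos i).le
        positivity
      · have h1 : s ≤ t i / (-a i) := hi0min i (Finset.mem_filter.mpr ⟨Finset.mem_univ i, h⟩)
        rw [le_div_iff₀ (by linarith)] at h1
        linarith
    · simp only [Pi.add_apply, Pi.smul_apply, smul_eq_mul, Finset.sum_add_distrib,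
        ← Finset.mul_sum, hsum, mul_zero, add_zero]
      exact htS.2
  refine hB (t + s • a) ht' ?_ i0 ?_
  · simp only [hZ, Pi.add_apply, Pi.smul_apply, smul_eq_mul, add_smul, Finset.sum_add_distrib]
    have h1 : ∑ i, (s * a i) • col (σ i) (x i) = s • ∑ i, a i • col (σ i) (x i) := by
      rw [Finset.smul_sum]
      exact Finset.sum_congr rfl fun i _ => mul_smul _ _ _
    rw [h1, ha, smul_zero, add_zero]
  · simp only [Pi.add_apply, Pi.smul_apply, smul_eq_mul, hs]
    have h1 : a i0 ≠ 0 := ha0.ne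
    rw [div_mul_eq_mul_div, div_neg, mul_div_cancel_right₀ _ h1]
    ring

end Pool.Agent.KL
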