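import Pool.Agent.Lib_helper86.KL.Cal
import Pool.Agent.Lib_helper86.KL.Ind

/-!
The core: a signed sum of degrees is positive.
-/

set_option linter.unusedSectionVars false

namespace Pool.Agent.KL

open MeasureTheory
open scoped BigOperators

variable {r D : ℕ}

/-- determinant of the family `dia (x i)` (`i` in `S`), `blk (ε i) (x i)` (`i` not in `S`) -/
noncomputable def dS (x : Fin r × Fin D → Fin D → ℝ) (ε : Fin r × Fin D → Fin r)
    (S : Finset (Fin r × Fin D)) : ℝ :=
  Matrix.detRowAlternating (R := ℝ) (n := Fin r × Fin D)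
    (fun i => if i ∈ S then dia (x i) else blk (ε i) (x i))

/-- the family `blk (ε i) (x i)` -/
def pe (x : Fin r × Fin D → Fin D → ℝ) (ε : Fin r × Fin D → Fin r) :
    Fin r × Fin D → Fin r × Fin D → ℝ := fun i => blk (ε i) (x i)

/-- the family `- dia (x i)` -/
def qe (x : Fin r × Fin D → Fin D → ℝ) : Fin r × Fin D → Fin r × Fin D → ℝ :=
  fun i => - dia (x i)

lemma sum_update {ι : Type*} [Fintype ι] [DecidableEq ι] {κ : Type*} [Fintype κ] [DecidableEq κ]
    (f : (ι → κ) → ℝ) (i : ι) :
    ∑ ε : ι → κ, ∑ k : κ, f (Function.update ε i k) = Fintype.card κ * ∑ ε : ι → κ, f ε := by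
  let e : (ι → κ) × κ ≃ (ι → κ) × κ :=
    { toFun := fun u => (Function.update u.1 i u.2, u.1 i)
      invFun := fun u => (Function.update u.1 i u.2, u.1 i)
      left_inv := fun u => by simp
      right_inv := fun u => by simp }
  have h1 : ∑ u : (ι → κ) × κ, f (Function.update u.1 i u.2) = ∑ u : (ι → κ) × κ, f u.1 :=
    Fintype.sum_equiv e _ _ (fun u => rfl)
  rw [Fintype.sum_prod_type, Fintype.sum_prod_type] at h1
  rw [h1]
  simp only [Finset.sum_const, nsmul_eq_mul, Finset.card_univ]
  rw [Finset.mul_sum]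

lemma dS_insert (x : Fin r × Fin D → Fin D → ℝ) (ε : Fin r × Fin D → Fin r)
    {S : Finset (Fin r × Fin D)} {i : Fin r × Fin D} (hi : i ∉ S) :
    dS x ε (insert i S) = ∑ k : Fin r, dS x (Function.update ε i k) S := by
  unfold dS
  have h1 : (fun l => if l ∈ insert i S then dia (x l) else blk (ε l) (x l))
      = Function.update (fun l => if l ∈ S then dia (x l) else blk (ε l) (x l)) i
        (∑ k : Fin r, blk k (x i)) := by
    funext l
    by_cases hl : l = i
    · subst hl; simp [sum_blk]
    · simp [Finset.mem_insert, hl]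
  rw [h1]
  have h2 := (Matrix.detRowAlternating (R := ℝ) (n := Fin r × Fin D)).toMultilinearMap.map_update_sum
    Finset.univ i (fun k : Fin r => (blk k (x i) : Fin r × Fin D → ℝ))
    (fun l => if l ∈ S then dia (x l) else blk (ε l) (x l))
  refine h2.trans (Finset.sum_congr rfl fun k _ => ?_)
  show Matrix.detRowAlternating _ = _
  congr 1
  funext l
  by_cases hl : l = i
  · subst hl; simp [hi]
  · simp [Function.update_of_ne hl]

lemma sum_dS (x : Fin r × Fin D → Fin D → ℝ) (S : Finset (Fin r × Fin D))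
    (G : (Fin r × Fin D → Fin r) → ℝ)
    (hG : ∀ i ∈ S, ∀ ε k, G (Function.update ε i k) = G ε) :
    (r : ℝ) ^ S.card * ∑ ε, dS x ε ∅ * G ε = ∑ ε, dS x ε S * G ε := by
  induction S using Finset.induction_on with
  | empty => simp
  | insert i S hi ih =>
    have h1 := ih (fun l hl => hG l (Finset.mem_insert_of_mem hl))
    have h2 : ∑ ε, dS x ε (insert i S) * G ε
        = ∑ ε : Fin r × Fin D → Fin r, ∑ k : Fin r,
          (dS x (Function.update ε i k) S * G (Function.update ε i k)) := by
      refine Finset.sum_congr rfl fun ε _ => ?_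
      rw [dS_insert x ε hi, Finset.sum_mul]
      refine Finset.sum_congr rfl fun k _ => ?_
      rw [hG i (Finset.mem_insert_self i S)]
    rw [h2, sum_update (fun ε => dS x ε S * G ε) i, ← h1, Finset.card_insert_of_notMem hi,
      Fintype.card_fin]
    ring

lemma dS_update (x : Fin r × Fin D → Fin D → ℝ) (ε : Fin r × Fin D → Fin r)
    {S : Finset (Fin r × Fin D)} {i : Fin r × Fin D} (hi : i ∈ S) (k : Fin r) :
    dS x (Function.update ε i k) S = dS x ε S := by
  unfold dS
  congr 1
  funext l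
  by_cases hl : l = i
  · subst hl; simp [hi]
  · simp [Function.update_of_ne hl]

lemma phi_update (x : Fin r × Fin D → Fin D → ℝ) (ε : Fin r × Fin D → Fin r)
    (t : Fin r × Fin D → ℝ) {i : Fin r × Fin D} (hi : t i < 0) (k : Fin r) :
    phi (pe x (Function.update ε i k)) (qe x) t = phi (pe x ε) (qe x) t := by
  unfold phi
  refine Finset.sum_congr rfl fun l _ => ?_
  by_cases hl : l = i
  · subst hl; simp [max_eq_right hi.le]
  · simp [pe, Function.update_of_ne hl]

lemma jac_eq (x : Fin r × Fin D → Fin D → ℝ) (ε : Fin r × Fin D → Fin r)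
    (t : Fin r × Fin D → ℝ) :
    jac (pe x ε) (qe x) t
      = (∏ i, |2 * t i|) * dS x ε (Finset.univ.filter fun i => t i < 0) := by
  unfold jac dS
  rw [← Matrix.det_transpose]
  have h1 : (Matrix.of fun a i => cvec (pe x ε) (qe x) t i a).transpose
      = fun i => |2 * t i| • (if i ∈ (Finset.univ.filter fun i => t i < 0) then dia (x i)
          else blk (ε i) (x i)) := by
    funext i
    simp only [Finset.mem_filter, Finset.mem_univ, true_and]
    funext a
    simp only [Matrix.transpose_apply, Matrix.of_apply, cvec, pe, qe]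
    by_cases h : t i < 0
    · rw [if_pos h, max_eq_right h.le, max_eq_left (by linarith : (0:ℝ) ≤ -t i),
        abs_of_neg (by linarith : 2 * t i < 0)]
      simp
    · rw [if_neg h, max_eq_left (not_lt.mp h), max_eq_right (by linarith : -t i ≤ 0),
        abs_of_nonneg (by linarith : 0 ≤ 2 * t i)]
      simp
  have h2 := (Matrix.detRowAlternating (R := ℝ) (n := Fin r × Fin D)).toMultilinearMap.map_smul_univ
    (fun i => |2 * t i|) (fun i => if i ∈ (Finset.univ.filter fun i => t i < 0) then dia (x i)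
          else blk (ε i) (x i))
  rw [h1]
  exact h2

lemma pf_of_tfree {x : Fin r × Fin D → Fin D → ℝ} (hx : TFree r x)
    (ε : Fin r × Fin D → Fin r) : ∀ t, phi (pe x ε) (qe x) t = 0 → t = 0 := by
  intro t ht
  have h1 : ∑ i, (t i) ^ 2 • col (if t i < 0 then none else some (ε i)) (x i) = 0 := by
    rw [← ht]
    unfold phi
    refine Finset.sum_congr rfl fun i _ => ?_
    by_cases h : t i < 0
    · rw [if_pos h, max_eq_right h.le, max_eq_left (by linarith : (0:ℝ) ≤ -t i)]
      simp [col, qe]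
    · rw [if_neg h, max_eq_left (not_lt.mp h), max_eq_right (by linarith : -t i ≤ 0)]
      simp [col, pe]
  have h2 := hx.eq_zero (fun i => if t i < 0 then none else some (ε i)) (fun i => (t i) ^ 2)
    (fun i => sq_nonneg _) h1
  funext i
  exact pow_eq_zero_iff (two_ne_zero) |>.mp (h2 i)

/-- pointwise identity -/
lemma theta_eq (x : Fin r × Fin D → Fin D → ℝ) (h : (Fin r × Fin D → ℝ) → ℝ)
    (t : Fin r × Fin D → ℝ) :
    (r : ℝ) ^ (Finset.univ.filter fun i => t i < 0).card *
      ∑ ε, dS x ε ∅ * (jac (pe x ε) (qe x) t * h (phi (pe x ε) (qe x) t))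
    = (∏ i, |2 * t i|) * ∑ ε, (dS x ε (Finset.univ.filter fun i => t i < 0)) ^ 2
        * h (phi (pe x ε) (qe x) t) := by
  have h1 := sum_dS x (Finset.univ.filter fun i => t i < 0)
    (fun ε => jac (pe x ε) (qe x) t * h (phi (pe x ε) (qe x) t)) (by
      intro i hi ε k
      have hi' : t i < 0 := (Finset.mem_filter.mp hi).2
      simp only [jac_eq, phi_update x ε t hi' k, dS_update x ε hi k])
  rw [h1, Finset.mul_sum]
  refine Finset.sum_congr rfl fun ε _ => ?_
  rw [jac_eq]
  ring

/-- an independent family gives a nonzero mixed determinant -/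
lemma exists_dS_ne_zero (hr : 0 < r) {x : Fin r × Fin D → Fin D → ℝ} (hx : TFree r x) :
    ∃ ε S, dS x ε S ≠ 0 := by
  obtain ⟨σ, hσ⟩ := exists_indep hx
  refine ⟨fun i => (σ i).getD ⟨0, hr⟩, Finset.univ.filter fun i => σ i = none, ?_⟩
  set c : Fin r × Fin D → ℝ := fun i => if σ i = none then -1 else 1 with hc
  have h1 : (fun i => if i ∈ (Finset.univ.filter fun i => σ i = none) then dia (x i)
      else blk ((σ i).getD ⟨0, hr⟩) (x i)) = fun i => c i • col (σ i) (x i) := by
    funext i
    rcases hi : σ i with _ | k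
    · simp [hi, hc, col]
    · simp [hi, hc, col]
  unfold dS
  rw [h1]
  have h2 := (Matrix.detRowAlternating (R := ℝ) (n := Fin r × Fin D)).toMultilinearMap.map_smul_univ
    c (fun i => col (σ i) (x i))
  have h3 : (Matrix.of fun i => col (σ i) (x i)).det ≠ 0 := by
    have h4 : IsUnit (Matrix.of fun i => col (σ i) (x i)) :=
      Matrix.linearIndependent_rows_iff_isUnit.mp hσ
    exact ((Matrix.isUnit_iff_isUnit_det _).mp h4).ne_zero
  intro h0
  have h5 : (∏ i, c i) • (Matrix.of fun i => col (σ i) (x i)).det = 0 :=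
    h2.symm.trans h0
  rw [smul_eq_mul] at h5
  rcases mul_eq_zero.mp h5 with h | h
  · obtain ⟨i, _, hi⟩ := Finset.prod_eq_zero_iff.mp h
    simp only [hc] at hi
    split_ifs at hi <;> norm_num at hi
  · exact h3 h

lemma linInd_of_dS {x : Fin r × Fin D → Fin D → ℝ} {ε : Fin r × Fin D → Fin r}
    (h : dS x ε ∅ ≠ 0) : LinearIndependent ℝ (fun i => blk (r := r) (ε i) (x i)) := by
  have h1 : (Matrix.of fun i => blk (ε i) (x i)).det ≠ 0 := by
    intro h0
    apply h
    unfold dS
    rw [← h0]
    simp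
    rfl
  have h2 : IsUnit (Matrix.of fun i => blk (ε i) (x i)) :=
    (Matrix.isUnit_iff_isUnit_det _).mpr (isUnit_iff_ne_zero.mpr h1)
  exact Matrix.linearIndependent_rows_iff_isUnit.mpr h2

theorem exists_surj (hr : 0 < r) {x : Fin r × Fin D → Fin D → ℝ} (hx : TFree r x) :
    ∃ ε : Fin r × Fin D → Fin r, dS x ε ∅ ≠ 0 ∧ ∀ w, ∃ t, phi (pe x ε) (qe x) t = w := by
  obtain ⟨ε0, S0, h0⟩ := exists_dS_ne_zero hr hx
  set t1 : Fin r × Fin D → ℝ := fun i => if i ∈ S0 then -1 else 1 with ht1
  have hS0 : (Finset.univ.filter fun i => t1 i < 0) = S0 := by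
    ext i
    simp only [Finset.mem_filter, Finset.mem_univ, true_and, ht1]
    by_cases h : i ∈ S0
    · simp [h]
    · simp only [h, if_false, iff_false, not_lt]
      norm_num
  set M : ℝ := ‖phi (pe x ε0) (qe x) t1‖ with hM
  let f : ContDiffBump (0 : Fin r × Fin D → ℝ) :=
    { rIn := M + 1, rOut := M + 2, rIn_pos := by positivity, rIn_lt_rOut := by linarith }
  have hf1 : ContDiff ℝ 1 f := f.contDiff
  have hfc : HasCompactSupport f := f.hasCompactSupport
  have hf0 : ∀ w, 0 ≤ f w := fun w => f.nonneg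
  have hfpos : 0 < f (phi (pe x ε0) (qe x) t1) := by
    apply f.pos_of_mem_ball
    simp only [Metric.mem_ball, dist_zero_right]
    show M < M + 2
    linarith
  set Θ : (Fin r × Fin D → ℝ) → ℝ := fun t =>
    ∑ ε, dS x ε ∅ * (jac (pe x ε) (qe x) t * f (phi (pe x ε) (qe x) t)) with hΘ
  have hpc : ∀ ε, Continuous fun t => jac (pe x ε) (qe x) t * f (phi (pe x ε) (qe x) t) :=
    fun ε => (jac_continuous _ _).mul (hf1.continuous.comp (phi_continuous _ _))
  have hps : ∀ ε, HasCompactSupport fun t =>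
      jac (pe x ε) (qe x) t * f (phi (pe x ε) (qe x) t) :=
    fun ε => HasCompactSupport.mul_left (comp_phi_compact (pf_of_tfree hx ε) hfc)
  have hint : ∀ ε, Integrable fun t => dS x ε ∅ *
      (jac (pe x ε) (qe x) t * f (phi (pe x ε) (qe x) t)) :=
    fun ε => ((hpc ε).integrable_of_hasCompactSupport (hps ε)).const_mul _
  have hr' : (0:ℝ) < r := by exact_mod_cast hr
  have hΘnn : 0 ≤ Θ := by
    intro t
    have h1 := theta_eq x f t
    have h2 : 0 ≤ (∏ i, |2 * t i|) * ∑ ε, (dS x ε (Finset.univ.filter fun i => t i < 0)) ^ 2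
        * f (phi (pe x ε) (qe x) t) :=
      mul_nonneg (Finset.prod_nonneg fun i _ => abs_nonneg _)
        (Finset.sum_nonneg fun ε _ => mul_nonneg (sq_nonneg _) (hf0 _))
    rw [← h1] at h2
    have h3 : (0:ℝ) < (r : ℝ) ^ (Finset.univ.filter fun i => t i < 0).card := by positivity
    exact nonneg_of_mul_nonneg_right h2 h3
  have hΘ1 : Θ t1 ≠ 0 := by
    intro hz
    have h1 := theta_eq x f t1
    have hz' : ∑ ε, dS x ε ∅ * (jac (pe x ε) (qe x) t1 * f (phi (pe x ε) (qe x) t1)) = 0 := hz
    rw [hz', mul_zero, hS0] at h1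
    have h2 : 0 < ∏ i, |2 * t1 i| := by
      refine Finset.prod_pos fun i _ => ?_
      apply abs_pos.mpr
      simp only [ht1]
      split_ifs <;> norm_num
    have h3 : 0 < ∑ ε, (dS x ε S0) ^ 2 * f (phi (pe x ε) (qe x) t1) := by
      refine Finset.sum_pos' (fun ε _ => mul_nonneg (sq_nonneg _) (hf0 _))
        ⟨ε0, Finset.mem_univ _, ?_⟩
      have := sq_pos_of_ne_zero h0
      positivity
    have h4 := mul_pos h2 h3
    rw [← h1] at h4
    exact lt_irrefl _ h4
  have hΘc : Continuous Θ := by
    simp only [hΘ]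
    exact continuous_finsetSum _ fun ε _ => continuous_const.mul (hpc ε)
  have hΘs : HasCompactSupport Θ := by
    have : ∀ s : Finset (Fin r × Fin D → Fin r), HasCompactSupport fun t =>
        ∑ ε ∈ s, dS x ε ∅ * (jac (pe x ε) (qe x) t * f (phi (pe x ε) (qe x) t)) := by
      intro s
      induction s using Finset.induction_on with
      | empty => exact HasCompactSupport.intro isCompact_empty fun t _ => by simp
      | insert a s ha ih =>
        simp only [Finset.sum_insert ha]
        exact HasCompactSupport.add (HasCompactSupport.mul_left (hps a)) ih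
    exact this Finset.univ
  have hpos : 0 < ∫ t, Θ t :=
    hΘc.integral_pos_of_hasCompactSupport_nonneg_nonzero hΘs hΘnn hΘ1
  have hsum : ∫ t, Θ t = ∑ ε, dS x ε ∅ * ∫ t, jac (pe x ε) (qe x) t * f (phi (pe x ε) (qe x) t) := by
    simp only [hΘ]
    rw [integral_finsetSum _ fun ε _ => hint ε]
    exact Finset.sum_congr rfl fun ε _ => integral_const_mul _ _
  rw [hsum] at hpos
  obtain ⟨ε, _, hε⟩ := Finset.exists_ne_zero_of_sum_ne_zero hpos.ne'
  refine ⟨ε, left_ne_zero_of_mul hε, fun w => ?_⟩
  by_contra hw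
  exact right_ne_zero_of_mul hε
    (int_eq_zero_of_not_range (pf_of_tfree hx ε) hf1 hfc (c := w) hw)

/-- the core theorem in coordinates -/
theorem core_coord (hr : 0 < r) {x : Fin r × Fin D → Fin D → ℝ} (hx : TFree r x) :
    ∃ ε : Fin r × Fin D → Fin r, LinearIndependent ℝ (fun i => blk (r := r) (ε i) (x i)) ∧
      ∃ (z : Fin D → ℝ) (a : Fin r × Fin D → ℝ), (∀ i, 0 < a i) ∧
        ∀ j, ∑ i, (if ε i = j then a i else 0) • x i = z := by
  obtain ⟨ε, hε, hsurj⟩ := exists_surj hr hx
  refine ⟨ε, linInd_of_dS hε, ?_⟩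
  obtain ⟨t, ht⟩ := hsurj (- ∑ i, blk (ε i) (x i))
  refine ⟨∑ i, (max (-t i) 0) ^ 2 • x i, fun i => 1 + (max (t i) 0) ^ 2, fun i => by positivity,
    fun j => ?_⟩
  funext b
  have h1 := congrFun ht (j, b)
  simp only [phi, Finset.sum_apply, Pi.add_apply, Pi.smul_apply, smul_eq_mul, pe, qe, blk, dia,
    Pi.neg_apply, Finset.sum_add_distrib, mul_neg, Finset.sum_neg_distrib] at h1
  simp only [Finset.sum_apply, Pi.smul_apply, smul_eq_mul]
  have h2 : ∑ i, (if ε i = j then 1 + (max (t i) 0) ^ 2 else 0) * x i b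
      = ∑ i, (max (t i) 0) ^ 2 * (if j = ε i then x i b else 0)
        + ∑ i, (if j = ε i then x i b else 0) := by
    rw [← Finset.sum_add_distrib]
    refine Finset.sum_congr rfl fun i _ => ?_
    by_cases h : ε i = j
    · rw [if_pos h, if_pos h.symm]; ring
    · rw [if_neg h, if_neg (fun h' => h h'.symm)]; ring
  rw [h2]
  linarith

end Pool.Agent.KL
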