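import Mathlib

/-!
Definitions for Kalai's conjecture on the dimensions of Tverberg sets.
-/

namespace Pool.Agent.KL

open scoped BigOperators

/-- `y` in block `j` of `(R^D)^r`, zero elsewhere -/
def blk {r D : ℕ} (j : Fin r) (y : Fin D → ℝ) : Fin r × Fin D → ℝ :=
  fun p => if p.1 = j then y p.2 else 0

/-- `y` in every block of `(R^D)^r` -/
def dia {r D : ℕ} (y : Fin D → ℝ) : Fin r × Fin D → ℝ := fun p => y p.2

/-- the `r+1` coloured copies of `y`; their sum is zero -/
def col {r D : ℕ} : Option (Fin r) → (Fin D → ℝ) → (Fin r × Fin D → ℝ)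
  | some j, y => blk j y
  | none, y => - dia y

/-- linear form of `T_{r+1} = empty`: no `r+1` disjoint subfamilies have a common nonzero
nonnegative combination -/
def TFree {ι F : Type*} [Fintype ι] [AddCommGroup F] [Module ℝ F] (r : ℕ) (x : ι → F) : Prop :=
  ∀ σ : ι → Option (Fin r), ∀ t : ι → ℝ, (∀ i, 0 ≤ t i) →
    (∀ j : Fin r, ∑ i, (if σ i = some j then t i else 0) • x i
      = ∑ i, (if σ i = none then t i else 0) • x i) → ∀ i, t i = 0

/-- the map `phi(t) = sum_i (t_i^+)^2 p_i + (t_i^-)^2 q_i` -/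
noncomputable def phi {ι : Type*} [Fintype ι] (p q : ι → ι → ℝ) (t : ι → ℝ) : ι → ℝ :=
  ∑ i, ((max (t i) 0) ^ 2 • p i + (max (-t i) 0) ^ 2 • q i)

/-- partial derivatives of `phi` -/
noncomputable def cvec {ι : Type*} (p q : ι → ι → ℝ) (t : ι → ℝ) (i : ι) : ι → ℝ :=
  (2 * max (t i) 0) • p i - (2 * max (-t i) 0) • q i

/-- Jacobian of `phi` -/
noncomputable def jac {ι : Type*} [Fintype ι] [DecidableEq ι] (p q : ι → ι → ℝ) (t : ι → ℝ) : ℝ :=
  (Matrix.of fun a i => cvec p q t i a).det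

end Pool.Agent.KL
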