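import Pool.Agent.Lib_helper86.KL.GeoDefs
import Pool.Agent.Lib_helper86.KL.Abs

/-!
From points to vectors and back.
-/

set_option linter.unusedSectionVars false

namespace Pool.Agent.KL

open scoped BigOperators

variable {d : ℕ}

lemma adim_mono {S S' : Set (Fin d → ℝ)} (h : S ⊆ S') : adim S ≤ adim S' := by
  classical
  unfold adim
  by_cases h1 : S = ∅
  · rw [if_pos h1]
    split_ifs
    · rfl
    · have : (0:ℤ) ≤ (Module.finrank ℝ (vectorSpan ℝ S') : ℤ) := by positivity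
      linarith
  · have h2 : S' ≠ ∅ := by
      intro h3
      rw [h3] at h
      exact h1 (Set.subset_empty_iff.mp h)
    rw [if_neg h1, if_neg h2]
    exact_mod_cast Submodule.finrank_mono (vectorSpan_mono ℝ h)

lemma neg_one_le_adim (S : Set (Fin d → ℝ)) : -1 ≤ adim S := by
  have := adim_mono (Set.empty_subset S)
  simpa [adim] using this

lemma adim_convexHull (S : Set (Fin d → ℝ)) : adim (convexHull ℝ S) = adim S := by
  unfold adim
  simp only [convexHull_eq_empty]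
  congr 2
  rw [← direction_affineSpan, affineSpan_convexHull, direction_affineSpan]

lemma cell_subset {r : ℕ} (hr : 1 ≤ r) (X : Finset (Fin d → ℝ)) (c : (Fin d → ℝ) → Fin r) :
    cell X c ⊆ convexHull ℝ (X : Set (Fin d → ℝ)) := by
  refine (Set.iInter_subset _ (⟨0, hr⟩ : Fin r)).trans (convexHull_mono ?_)
  intro x hx
  exact hx.1

lemma adim_cell_le {r : ℕ} (hr : 1 ≤ r) (X : Finset (Fin d → ℝ)) (c : (Fin d → ℝ) → Fin r) :
    adim (cell X c) ≤ adim (X : Set (Fin d → ℝ)) := by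
  rw [← adim_convexHull (X : Set (Fin d → ℝ))]
  exact adim_mono (cell_subset hr X c)

lemma dimT_bdd {r : ℕ} (hr : 1 ≤ r) (X : Finset (Fin d → ℝ)) :
    BddAbove (Set.range fun c : (Fin d → ℝ) → Fin r => adim (cell X c)) := by
  refine ⟨adim (X : Set (Fin d → ℝ)), ?_⟩
  rintro _ ⟨c, rfl⟩
  exact adim_cell_le hr X c

lemma dimT_nonempty {r : ℕ} (hr : 1 ≤ r) (X : Finset (Fin d → ℝ)) :
    (Set.range fun c : (Fin d → ℝ) → Fin r => adim (cell X c)).Nonempty :=
  ⟨_, ⟨fun _ => ⟨0, hr⟩, rfl⟩⟩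

lemma dimT_le {r : ℕ} (hr : 1 ≤ r) (X : Finset (Fin d → ℝ)) :
    dimT r X ≤ adim (X : Set (Fin d → ℝ)) := by
  apply csSup_le (dimT_nonempty hr X)
  rintro _ ⟨c, rfl⟩
  exact adim_cell_le hr X c

lemma le_dimT {r : ℕ} (hr : 1 ≤ r) (X : Finset (Fin d → ℝ)) (c : (Fin d → ℝ) → Fin r) :
    adim (cell X c) ≤ dimT r X :=
  le_csSup (dimT_bdd hr X) ⟨c, rfl⟩

lemma dimT_eq_neg_one {r : ℕ} (hr : 1 ≤ r) {X : Finset (Fin d → ℝ)} (h : T r X = ∅) :
    dimT r X = -1 := by
  have h1 : ∀ c : (Fin d → ℝ) → Fin r, adim (cell X c) = -1 := by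
    intro c
    have : cell X c = ∅ := by
      rw [← Set.subset_empty_iff, ← h]
      exact Set.subset_iUnion (fun c : (Fin d → ℝ) → Fin r => cell X c) c
    rw [this]
    simp [adim]
  apply le_antisymm
  · apply csSup_le (dimT_nonempty hr X)
    rintro _ ⟨c, rfl⟩
    exact (h1 c).le
  · have := le_dimT hr X (fun _ => ⟨0, hr⟩)
    rwa [h1] at this

lemma cell_merge {i j : ℕ} (hi : 1 ≤ i) (hij : i ≤ j) (X : Finset (Fin d → ℝ))
    (c : (Fin d → ℝ) → Fin j) : ∃ c' : (Fin d → ℝ) → Fin i, cell X c ⊆ cell X c' := by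
  refine ⟨fun x => ⟨min (c x : ℕ) (i - 1), by omega⟩, ?_⟩
  intro p hp
  refine Set.mem_iInter.mpr fun k => ?_
  have h1 := Set.mem_iInter.mp hp (⟨k, lt_of_lt_of_le k.2 hij⟩ : Fin j)
  refine convexHull_mono ?_ h1
  rintro x ⟨hx, hc⟩
  refine ⟨hx, ?_⟩
  apply Fin.ext
  simp only [hc]
  have := k.2
  omega

lemma T_empty_mono {i j : ℕ} (hi : 1 ≤ i) (hij : i ≤ j) {X : Finset (Fin d → ℝ)}
    (h : T i X = ∅) : T j X = ∅ := by
  rw [Set.eq_empty_iff_forall_notMem]
  intro p hp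
  obtain ⟨c, hc⟩ := Set.mem_iUnion.mp hp
  obtain ⟨c', hc'⟩ := cell_merge hi hij X c
  have : p ∈ T i X := Set.mem_iUnion.mpr ⟨c', hc' hc⟩
  rw [h] at this
  exact this

lemma sum_mem_hull {ι : Type*} [Fintype ι] {S : Set (Fin d → ℝ)} (w : ι → ℝ)
    (z : ι → Fin d → ℝ) (hw : ∀ i, 0 ≤ w i) (hs : ∑ i, w i = 1) (hz : ∀ i, w i ≠ 0 → z i ∈ S) :
    ∑ i, w i • z i ∈ convexHull ℝ S := by
  classical
  have h1 : ∑ i, w i • z i = ∑ i ∈ Finset.univ.filter (fun i => w i ≠ 0), w i • z i := by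
    rw [Finset.sum_filter]
    refine Finset.sum_congr rfl fun i _ => ?_
    by_cases h : w i = 0
    · simp [h]
    · simp [h]
  have h2 : ∑ i ∈ Finset.univ.filter (fun i => w i ≠ 0), w i = 1 := by
    rw [← hs, Finset.sum_filter]
    refine Finset.sum_congr rfl fun i _ => ?_
    by_cases h : w i = 0
    · simp [h]
    · simp [h]
  rw [h1]
  refine (convex_convexHull ℝ S).sum_mem (fun i _ => hw i) h2 fun i hi => ?_
  exact subset_convexHull ℝ S (hz i (Finset.mem_filter.mp hi).2)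

/-- lifted point `(p - p0, 1)` in `vectorSpan X × ℝ` -/
noncomputable def lift (X : Finset (Fin d → ℝ)) (p0 : {x // x ∈ X}) (p : {x // x ∈ X}) :
    (vectorSpan ℝ (X : Set (Fin d → ℝ))) × ℝ :=
  (⟨p.1 - p0.1, vsub_mem_vectorSpan ℝ p.2 p0.2⟩, 1)

lemma sum_lift_fst {ι : Type*} [Fintype ι] (X : Finset (Fin d → ℝ)) (p0 : {x // x ∈ X})
    (f : ι → {x // x ∈ X}) (w : ι → ℝ) :
    (((∑ i, w i • lift X p0 (f i)).1 : vectorSpan ℝ (X : Set (Fin d → ℝ))) : Fin d → ℝ)
      = ∑ i, w i • (f i).1 - (∑ i, w i) • p0.1 := by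
  rw [Prod.fst_sum, Submodule.coe_sum, Finset.sum_smul, ← Finset.sum_sub_distrib]
  refine Finset.sum_congr rfl fun i _ => ?_
  simp [lift, smul_sub]

lemma sum_lift_snd {ι : Type*} [Fintype ι] (X : Finset (Fin d → ℝ)) (p0 : {x // x ∈ X})
    (f : ι → {x // x ∈ X}) (w : ι → ℝ) :
    (∑ i, w i • lift X p0 (f i)).2 = ∑ i, w i := by
  rw [Prod.snd_sum]
  simp [lift]

theorem tfree_of_T_empty {r : ℕ} {X : Finset (Fin d → ℝ)} (p0 : {x // x ∈ X})
    (hT : T (r + 1) X = ∅) : TFree r (lift X p0) := by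
  classical
  intro σ t ht h
  by_contra hne
  push Not at hne
  obtain ⟨i0, hi0⟩ := hne
  set H := ∑ i, (if σ i = none then t i else 0) with hH
  have hHj : ∀ s : Option (Fin r), ∑ i, (if σ i = s then t i else 0) = H := by
    intro s
    rcases s with _ | j
    · rfl
    · have h1 := congrArg Prod.snd (h j)
      rwa [sum_lift_snd X p0 (fun i => i), sum_lift_snd X p0 (fun i => i)] at h1
  have hHpos : 0 < H := by
    have h1 : 0 < t i0 := lt_of_le_of_ne (ht i0) (Ne.symm hi0)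
    rw [← hHj (σ i0)]
    have h2 := Finset.single_le_sum (f := fun i => if σ i = σ i0 then t i else 0)
      (fun i _ => by split_ifs; exacts [ht i, le_rfl]) (Finset.mem_univ i0)
    simp only [if_true] at h2
    linarith
  set q := ∑ i, (if σ i = none then t i else 0) • (i : Fin d → ℝ) with hq
  have hqj : ∀ s : Option (Fin r), ∑ i, (if σ i = s then t i else 0) • (i : Fin d → ℝ) = q := by
    intro s
    rcases s with _ | j
    · rfl
    · have h1 := congrArg (fun u => ((u.1 : vectorSpan ℝ (X : Set (Fin d → ℝ))) : Fin d → ℝ)) (h j)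
      rw [sum_lift_fst X p0 (fun i => i), sum_lift_fst X p0 (fun i => i), hHj (some j), hHj none]
        at h1
      exact sub_left_injective h1
  let e : Fin (r + 1) ≃ Option (Fin r) := finSuccEquiv r
  have hmem : H⁻¹ • q ∈ T (r + 1) X := by
    refine Set.mem_iUnion.mpr ⟨fun x => if hx : x ∈ X then e.symm (σ ⟨x, hx⟩) else 0, ?_⟩
    refine Set.mem_iInter.mpr fun k => ?_
    have h1 : H⁻¹ • q = ∑ i, (H⁻¹ * (if σ i = e k then t i else 0)) • (i : Fin d → ℝ) := by
      rw [← hqj (e k), Finset.smul_sum]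
      exact Finset.sum_congr rfl fun i _ => (mul_smul _ _ _).symm
    rw [h1]
    refine sum_mem_hull _ _ (fun i => ?_) ?_ fun i hi => ?_
    · have := ht i
      split_ifs
      · positivity
      · simp
    · rw [← Finset.mul_sum, hHj, inv_mul_cancel₀ hHpos.ne']
    · have h2 : σ i = e k := by
        by_contra h3
        apply hi
        simp [h3]
      refine ⟨i.2, ?_⟩
      simp [h2]
  rw [hT] at hmem
  exact hmem


lemma sum_class {M : Type*} [AddCommMonoid M] {r : ℕ} {X : Finset (Fin d → ℝ)}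
    {ε : {x // x ∈ X} → Fin r} {c : (Fin d → ℝ) → Fin r}
    (hc : ∀ x (hx : x ∈ X), c x = ε ⟨x, hx⟩) (j : Fin r) (g : (Fin d → ℝ) → M) :
    ∑ i : {i : {x // x ∈ X} // ε i = j}, g i.1.1 = ∑ x ∈ X.filter (fun x => c x = j), g x := by
  refine Finset.sum_bij (fun i _ => i.1.1) ?_ ?_ ?_ ?_
  · intro i _
    exact Finset.mem_filter.mpr ⟨i.1.2, by rw [hc _ i.1.2]; exact i.2⟩
  · intro i _ i' _ h
    exact Subtype.ext (Subtype.ext h)
  · intro x hx
    obtain ⟨h1, h2⟩ := Finset.mem_filter.mp hx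
    exact ⟨⟨⟨x, h1⟩, by rw [← hc x h1]; exact h2⟩, Finset.mem_univ _, rfl⟩
  · intro i _
    rfl

/-- the structure theorem -/
theorem simplices {r : ℕ} (hr : 1 ≤ r) {X : Finset (Fin d → ℝ)} (p0 : {x // x ∈ X})
    (hT : T (r + 1) X = ∅)
    (hn : r * (Module.finrank ℝ (vectorSpan ℝ (X : Set (Fin d → ℝ))) + 1) ≤ X.card) :
    X.card = r * (Module.finrank ℝ (vectorSpan ℝ (X : Set (Fin d → ℝ))) + 1) ∧
    ∃ c : (Fin d → ℝ) → Fin r,
      (∀ j, (X.filter fun x => c x = j).card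
        = Module.finrank ℝ (vectorSpan ℝ (X : Set (Fin d → ℝ))) + 1) ∧
      (∀ j, AffineIndependent ℝ (fun x : {x // x ∈ X ∧ c x = j} => x.1)) ∧
      (∃ (p : Fin d → ℝ) (w : (Fin d → ℝ) → ℝ), (∀ x ∈ X, 0 < w x) ∧
        ∀ j, ∑ x ∈ X.filter (fun x => c x = j), w x = 1 ∧
          ∑ x ∈ X.filter (fun x => c x = j), w x • x = p) ∧
      (cell X c).Nonempty ∧
      vectorSpan ℝ (X : Set (Fin d → ℝ)) ≤ vectorSpan ℝ (cell X c) := by
  classical
  have hy := tfree_of_T_empty p0 hT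
  set V := vectorSpan ℝ (X : Set (Fin d → ℝ)) with hV
  have hF : Module.finrank ℝ (V × ℝ) = Module.finrank ℝ V + 1 := by
    rw [Module.finrank_prod, Module.finrank_self]
  have hcard : X.card = r * (Module.finrank ℝ V + 1) := by
    apply le_antisymm _ hn
    have := hy.card_le
    rwa [hF, Fintype.card_coe] at this
  refine ⟨hcard, ?_⟩
  obtain ⟨ε, hεcard, hlin, hspan, z, a, ha, hz⟩ := core hr hy (by
    rw [hF, Fintype.card_coe]; exact hcard)
  rw [hF] at hεcard
  set c : (Fin d → ℝ) → Fin r := fun x => if hx : x ∈ X then ε ⟨x, hx⟩ else ⟨0, hr⟩ with hcdef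
  have hc : ∀ x (hx : x ∈ X), c x = ε ⟨x, hx⟩ := fun x hx => by simp only [hcdef, dif_pos hx]
  have hclass : ∀ j, (X.filter fun x => c x = j).card = Module.finrank ℝ V + 1 := by
    intro j
    have h1 := sum_class hc j (fun _ => (1:ℕ))
    rw [Finset.sum_const, Finset.sum_const, smul_eq_mul, smul_eq_mul, mul_one, mul_one] at h1
    rw [← h1, Finset.card_univ, hεcard]
  -- total weight
  set H := z.2 with hH
  have hHj : ∀ j, ∑ i : {i // ε i = j}, a i.1 = H := by
    intro j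
    rw [hH, ← hz j, sum_lift_snd X p0 (fun i : {i // ε i = j} => i.1)]
  have hHpos : 0 < H := by
    have j0 : Fin r := ⟨0, hr⟩
    rw [← hHj j0]
    refine Finset.sum_pos (fun i _ => ha _) ?_
    rw [Finset.univ_nonempty_iff, ← Fintype.card_pos_iff, hεcard]
    omega
  set Q : Fin d → ℝ := (z.1 : Fin d → ℝ) + H • p0.1 with hQ
  have hQj : ∀ j, ∑ i : {i // ε i = j}, a i.1 • (i.1.1 : Fin d → ℝ) = Q := by
    intro j
    have h1 := sum_lift_fst X p0 (fun i : {i // ε i = j} => i.1) (fun i => a i.1)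
    rw [hz j, hHj j] at h1
    rw [hQ, h1, sub_add_cancel]
  have hmem : ∀ v : V, ∃ η : ℝ, 0 < η ∧ H⁻¹ • Q + η • (v : Fin d → ℝ) ∈ cell X c := by
    intro v
    have h1 : ∀ j, ∃ b : {i // ε i = j} → ℝ, ∑ i, b i • lift X p0 i.1 = (v, 0) := by
      intro j
      apply (Submodule.mem_span_range_iff_exists_fun ℝ).mp
      rw [hspan j]
      trivial
    choose b hb using h1
    have hb1 : ∀ j, ∑ i, b j i = 0 := by
      intro j
      have h2 := sum_lift_snd X p0 (fun i : {i // ε i = j} => i.1) (b j)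
      rw [hb j] at h2
      exact h2.symm
    have hb2 : ∀ j, ∑ i, b j i • (i.1.1 : Fin d → ℝ) = (v : Fin d → ℝ) := by
      intro j
      have h2 := sum_lift_fst X p0 (fun i : {i // ε i = j} => i.1) (b j)
      rw [hb j, hb1 j, zero_smul, sub_zero] at h2
      exact h2.symm
    have h3 : ∀ᶠ η in nhdsWithin (0:ℝ) (Set.Ioi 0), ∀ j, ∀ i : {i // ε i = j},
        0 < H⁻¹ * a i.1 + η * b j i := by
      rw [Filter.eventually_all]
      intro j
      rw [Filter.eventually_all]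
      intro i
      have h4 : Filter.Tendsto (fun η : ℝ => H⁻¹ * a i.1 + η * b j i) (nhdsWithin (0:ℝ) (Set.Ioi 0))
          (nhds (H⁻¹ * a i.1 + 0 * b j i)) := by
        apply Filter.Tendsto.mono_left _ nhdsWithin_le_nhds
        exact (Continuous.tendsto (by fun_prop) 0)
      apply h4.eventually_const_lt
      have := ha i.1
      rw [zero_mul, add_zero]
      positivity
    obtain ⟨η, h5, h6⟩ := (h3.and self_mem_nhdsWithin).exists
    refine ⟨η, h6, Set.mem_iInter.mpr fun j => ?_⟩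
    have h7 : H⁻¹ • Q + η • (v : Fin d → ℝ)
        = ∑ i : {i // ε i = j}, (H⁻¹ * a i.1 + η * b j i) • (i.1.1 : Fin d → ℝ) := by
      simp only [add_smul, Finset.sum_add_distrib, mul_smul]
      rw [← Finset.smul_sum, ← Finset.smul_sum, hQj j, hb2 j]
    rw [h7]
    refine sum_mem_hull _ _ (fun i => (h5 j i).le) ?_ fun i _ => ?_
    · rw [Finset.sum_add_distrib, ← Finset.mul_sum, ← Finset.mul_sum, hHj j, hb1 j, mul_zero,
        add_zero, inv_mul_cancel₀ hHpos.ne']
    · exact ⟨i.1.2, by rw [hc _ i.1.2]; exact i.2⟩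
  have hq : H⁻¹ • Q ∈ cell X c := by
    obtain ⟨η, _, h1⟩ := hmem 0
    simpa using h1
  refine ⟨c, hclass, ?_, ?_, ⟨_, hq⟩, ?_⟩
  · intro j
    rw [affineIndependent_iff]
    intro s w hw1 hw2 e he
    -- use linear independence of the lifted class
    have h1 := hlin j
    let f : {x // x ∈ X ∧ c x = j} → {i : {x // x ∈ X} // ε i = j} :=
      fun x => ⟨⟨x.1, x.2.1⟩, by rw [← hc _ x.2.1]; exact x.2.2⟩
    have hf : Function.Injective f := by
      intro x x' hxx
      apply Subtype.ext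
      exact congrArg (fun u : {i : {x // x ∈ X} // ε i = j} => u.1.1) hxx
    have h2 := h1.comp f hf
    rw [linearIndependent_iff'] at h2
    refine h2 s w ?_ e he
    have h3 : ∀ x : {x // x ∈ X ∧ c x = j}, ((fun i : {i // ε i = j} => lift X p0 i.1) ∘ f) x
        = lift X p0 ⟨x.1, x.2.1⟩ := fun x => rfl
    simp only [h3]
    apply Prod.ext
    · rw [Prod.fst_sum]
      apply Subtype.ext
      rw [Submodule.coe_sum]
      simp only [lift, Prod.smul_mk, Submodule.coe_smul, smul_sub, Finset.sum_sub_distrib]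
      rw [hw2, ← Finset.sum_smul, hw1]
      simp
    · rw [Prod.snd_sum]
      simpa [lift] using hw1
  · refine ⟨H⁻¹ • Q, fun x => if hx : x ∈ X then H⁻¹ * a ⟨x, hx⟩ else 0, ?_, ?_⟩
    · intro x hx
      simp only [dif_pos hx]
      have := ha ⟨x, hx⟩
      positivity
    · intro j
      rw [← sum_class hc j, ← sum_class hc j]
      constructor
      · have h1 : ∀ i : {i // ε i = j}, (if hx : i.1.1 ∈ X then H⁻¹ * a ⟨i.1.1, hx⟩ else 0)
            = H⁻¹ * a i.1 := fun i => by rw [dif_pos i.1.2]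
        simp only [h1]
        rw [← Finset.mul_sum, hHj j, inv_mul_cancel₀ hHpos.ne']
      · have h1 : ∀ i : {i // ε i = j}, (if hx : i.1.1 ∈ X then H⁻¹ * a ⟨i.1.1, hx⟩ else 0)
            • (i.1.1 : Fin d → ℝ) = H⁻¹ • (a i.1 • i.1.1) := fun i => by
          rw [dif_pos i.1.2, mul_smul]
        simp only [h1]
        rw [← Finset.smul_sum, hQj j]
  · intro v hv
    obtain ⟨η, hη, h1⟩ := hmem ⟨v, hv⟩
    have h2 : η • v ∈ vectorSpan ℝ (cell X c) := by
      have h3 := vsub_mem_vectorSpan ℝ h1 hq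
      simpa using h3
    have h4 := Submodule.smul_mem _ (η⁻¹) h2
    rwa [smul_smul, inv_mul_cancel₀ hη.ne', one_smul] at h4

/-- Kalai's conjecture when `|X| ≥ r (dim aff X + 1)` and `T_{r+1}(X)` is empty -/
theorem kalai {r : ℕ} (hr : 1 ≤ r) {X : Finset (Fin d → ℝ)} (hX : X.Nonempty)
    (hT : T (r + 1) X = ∅) (hn : (r : ℤ) * (adim (X : Set (Fin d → ℝ)) + 1) ≤ X.card) :
    (X.card : ℤ) = r * (adim (X : Set (Fin d → ℝ)) + 1) ∧
    (∃ c : (Fin d → ℝ) → Fin r,
      (∀ j, ((X.filter fun x => c x = j).card : ℤ) = adim (X : Set (Fin d → ℝ)) + 1) ∧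
      (∀ j, AffineIndependent ℝ (fun x : {x // x ∈ X ∧ c x = j} => x.1)) ∧
      (∃ (p : Fin d → ℝ) (w : (Fin d → ℝ) → ℝ), (∀ x ∈ X, 0 < w x) ∧
        ∀ j, ∑ x ∈ X.filter (fun x => c x = j), w x = 1 ∧
          ∑ x ∈ X.filter (fun x => c x = j), w x • x = p) ∧
      adim (cell X c) = adim (X : Set (Fin d → ℝ))) ∧
    (∀ j, 1 ≤ j → j ≤ r → dimT j X = adim (X : Set (Fin d → ℝ))) ∧
    (∀ j, r < j → dimT j X = -1) ∧
    ∑ j ∈ Finset.Icc 1 X.card, dimT j X = 0 := by
  classical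
  obtain ⟨x0, hx0⟩ := hX
  have hXne : (X : Set (Fin d → ℝ)) ≠ ∅ := by
    intro h
    have : x0 ∈ (X : Set (Fin d → ℝ)) := hx0
    rw [h] at this
    exact this
  have hadim : adim (X : Set (Fin d → ℝ))
      = (Module.finrank ℝ (vectorSpan ℝ (X : Set (Fin d → ℝ))) : ℤ) := by
    unfold adim
    rw [if_neg hXne]
  have hn' : r * (Module.finrank ℝ (vectorSpan ℝ (X : Set (Fin d → ℝ))) + 1) ≤ X.card := by
    rw [hadim] at hn
    exact_mod_cast hn
  obtain ⟨hcard, c, hclass, hind, hp, hne, hspan⟩ := simplices hr ⟨x0, hx0⟩ hT hn'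
  have hcard' : (X.card : ℤ) = r * (adim (X : Set (Fin d → ℝ)) + 1) := by
    rw [hadim, hcard]
    push_cast
    ring
  have hfull : adim (cell X c) = adim (X : Set (Fin d → ℝ)) := by
    apply le_antisymm (adim_cell_le hr X c)
    rw [hadim]
    unfold adim
    rw [if_neg hne.ne_empty]
    exact_mod_cast Submodule.finrank_mono hspan
  have hlow : ∀ j, 1 ≤ j → j ≤ r → dimT j X = adim (X : Set (Fin d → ℝ)) := by
    intro j h1 h2
    apply le_antisymm (dimT_le h1 X)
    obtain ⟨c', hc'⟩ := cell_merge h1 h2 X c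
    rw [← hfull]
    exact (adim_mono hc').trans (le_dimT h1 X c')
  have hhigh : ∀ j, r < j → dimT j X = -1 := by
    intro j h1
    exact dimT_eq_neg_one (by omega) (T_empty_mono (by omega) h1 hT)
  refine ⟨hcard', ⟨c, ?_, hind, hp, hfull⟩, hlow, hhigh, ?_⟩
  · intro j
    rw [hclass j, hadim]
    push_cast
    ring
  · have hrn : r ≤ X.card := by
      rw [hcard]
      exact Nat.le_mul_of_pos_right r (by omega)
    have h1 : ∀ n : ℕ, r ≤ n → ∑ j ∈ Finset.Icc 1 n, dimT j X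
        = r * adim (X : Set (Fin d → ℝ)) - (n - r) := by
      intro n hn
      induction n, hn using Nat.le_induction with
      | base =>
        rw [Finset.sum_congr rfl (fun j hj => hlow j (Finset.mem_Icc.mp hj).1
          (Finset.mem_Icc.mp hj).2)]
        simp
      | succ n hn ih =>
        rw [Finset.sum_Icc_succ_top (by omega), ih, hhigh (n + 1) (by omega)]
        push_cast
        ring
    rw [h1 X.card hrn, hcard']
    ring

end Pool.Agent.KL
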