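import Mathlib

/-!
Tverberg sets and their dimensions.
-/

namespace Pool.Agent.KL

/-- affine dimension of a set, with `dim empty = -1` -/
noncomputable def adim {d : ℕ} (S : Set (Fin d → ℝ)) : ℤ :=
  open Classical in if S = ∅ then -1 else (Module.finrank ℝ (vectorSpan ℝ S) : ℤ)

/-- the intersection of the convex hulls of the `r` classes of the colouring `c` of `X` -/
def cell {d r : ℕ} (X : Finset (Fin d → ℝ)) (c : (Fin d → ℝ) → Fin r) : Set (Fin d → ℝ) :=
  ⋂ j : Fin r, convexHull ℝ {x | x ∈ X ∧ c x = j}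

/-- the set of Tverberg points of order `r` -/
def T {d : ℕ} (r : ℕ) (X : Finset (Fin d → ℝ)) : Set (Fin d → ℝ) :=
  ⋃ c : (Fin d → ℝ) → Fin r, cell X c

/-- `dim T_r(X)`: the largest dimension of the polytopes `cell X c` -/
noncomputable def dimT {d : ℕ} (r : ℕ) (X : Finset (Fin d → ℝ)) : ℤ :=
  sSup (Set.range fun c : (Fin d → ℝ) → Fin r => adim (cell X c))

end Pool.Agent.KL
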